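import Pool.Agent.W839.Ch.Stubs

set_option autoImplicit false
open scoped Classical
open Finset Filter Topology

namespace Pool.Agent.W766.ChG3
open Pool.Agent.W839.Ch

/-! ## independent bits -/

lemma bw_nonneg {p : ℝ} (h0 : 0 < p) (h1 : p < 1) (b : Bool) : 0 ≤ bw p b := by
  unfold bw; split_ifs <;> linarith

lemma EB_mono {ι : Type} [Fintype ι] {p : ℝ} (h0 : 0 < p) (h1 : p < 1)
    {F G : (ι → Bool) → ℝ} (h : ∀ ω, F ω ≤ G ω) : EB p F ≤ EB p G := by
  unfold EB
  apply Finset.sum_le_sum
  intro ω _
  exact mul_le_mul_of_nonneg_left (h ω) (Finset.prod_nonneg (fun i _ => bw_nonneg h0 h1 _))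

lemma EB_prod {ι : Type} [Fintype ι] (p : ℝ) (h : ι → Bool → ℝ) :
    EB p (fun ω => ∏ i, h i (ω i)) = ∏ i, (p * h i true + (1 - p) * h i false) := by
  unfold EB
  have : ∀ ω : ι → Bool, (∏ i, bw p (ω i)) * ∏ i, h i (ω i) = ∏ i, (bw p (ω i) * h i (ω i)) :=
    fun ω => (Finset.prod_mul_distrib).symm
  simp_rw [this]
  have h2 := Finset.prod_univ_sum (fun _ : ι => (Finset.univ : Finset Bool))
    (fun i b => bw p b * h i b)
  rw [Fintype.piFinset_univ] at h2
  rw [← h2]
  apply Finset.prod_congr rfl
  intro i _
  simp [bw]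

lemma EB_const {ι : Type} [Fintype ι] (p : ℝ) (c : ℝ) :
    EB p (fun _ : ι → Bool => c) = c := by
  have h := EB_prod (ι := ι) p (fun _ _ => 1)
  simp only [Finset.prod_const_one, mul_one] at h
  have h3 : EB p (fun _ : ι → Bool => c) = EB p (fun _ : ι → Bool => (1 : ℝ)) * c := by
    unfold EB
    rw [Finset.sum_mul]
    apply Finset.sum_congr rfl
    intro ω _
    ring
  rw [h3, h]
  simp

lemma EB_sum {ι κ : Type} [Fintype ι] (p : ℝ) (s : Finset κ) (F : κ → (ι → Bool) → ℝ) :
    EB p (fun ω => ∑ z ∈ s, F z ω) = ∑ z ∈ s, EB p (F z) := by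
  unfold EB
  rw [Finset.sum_comm]
  apply Finset.sum_congr rfl
  intro ω _
  rw [Finset.mul_sum]

lemma EB_mul_const {ι : Type} [Fintype ι] (p : ℝ) (c : ℝ) (F : (ι → Bool) → ℝ) :
    EB p (fun ω => c * F ω) = c * EB p F := by
  unfold EB
  rw [Finset.mul_sum]
  apply Finset.sum_congr rfl
  intro ω _
  ring

lemma Pr_eq_EB (hB : S_BIT) (n : ℕ) (p : ℝ) (P : SimpleGraph (Fin n) → Prop) :
    Pr n p P = EB p (fun ω : Sym2 (Fin n) → Bool => if P (gr ω) then 1 else 0) := by
  have h := hB n p (fun G => if P G then (1 : ℝ) else 0)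
  rw [h]
  unfold Pr
  apply Finset.sum_congr rfl
  intro G _
  split_ifs <;> simp

/-- probability of disagreement of bits with given values on `U` -/
lemma EB_disagree {n : ℕ} {p : ℝ} (h0 : 0 < p) (h1 : p < 1) (b : Fin n) (U : Finset (Fin n))
    (x : Fin n → Bool) :
    EB p (fun η : Sym2 (Fin n) → Bool => ∏ v ∈ U, (if x v ≠ η s(b, v) then (1/2 : ℝ) else 1))
      ≤ (1 - min p (1 - p) / 2) ^ U.card := by
  have e : (fun η : Sym2 (Fin n) → Bool => ∏ v ∈ U, (if x v ≠ η s(b, v) then (1/2 : ℝ) else 1))
      = fun η => ∏ i, (fun (i : Sym2 (Fin n)) (c : Bool) =>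
        ∏ v ∈ U.filter (fun v => s(b, v) = i), (if x v ≠ c then (1/2 : ℝ) else 1)) i (η i) := by
    funext η
    simp only
    have := (Finset.prod_fiberwise_of_maps_to (s := U) (t := (Finset.univ : Finset (Sym2 (Fin n))))
      (g := fun v => s(b, v)) (fun v _ => Finset.mem_univ _)
      (fun v => (if x v ≠ η s(b, v) then (1/2 : ℝ) else 1)))
    rw [← this]
    apply Finset.prod_congr rfl
    intro i _
    apply Finset.prod_congr rfl
    intro v hv
    rw [(Finset.mem_filter.1 hv).2]
  rw [e, EB_prod p (fun (i : Sym2 (Fin n)) (c : Bool) =>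
        ∏ v ∈ U.filter (fun v => s(b, v) = i), (if x v ≠ c then (1/2 : ℝ) else 1))]
  have e2 : (1 - min p (1 - p) / 2) ^ U.card
      = ∏ i : Sym2 (Fin n), ∏ v ∈ U.filter (fun v => s(b, v) = i), (1 - min p (1 - p) / 2) := by
    rw [Finset.prod_fiberwise_of_maps_to (fun v _ => Finset.mem_univ _), Finset.prod_const]
  rw [e2]
  apply Finset.prod_le_prod
  · intro i _
    have : ∀ c : Bool, 0 ≤ ∏ v ∈ U.filter (fun v => s(b, v) = i),
        (if x v ≠ c then (1/2 : ℝ) else 1) := by
      intro c
      apply Finset.prod_nonneg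
      intro v _
      split_ifs <;> norm_num
    have h3 := this true
    have h4 := this false
    have h5 : 0 ≤ 1 - p := by linarith
    positivity
  · intro i _
    by_cases hne : (U.filter (fun v => s(b, v) = i)).Nonempty
    · obtain ⟨v, hv⟩ := hne
      have hs : U.filter (fun v => s(b, v) = i) = {v} := by
        ext u
        simp only [Finset.mem_filter, Finset.mem_singleton] at hv ⊢
        constructor
        · rintro ⟨_, hu⟩
          rw [← hv.2] at hu
          have := Sym2.congr_right.1 hu
          exact this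
        · rintro rfl
          exact hv
      rw [hs]
      simp only [Finset.prod_singleton]
      have hp : p ≤ 1 := h1.le
      rcases Bool.eq_false_or_eq_true (x v) with hx | hx
      · rw [hx]
        simp
        have := min_le_right p (1 - p)
        nlinarith
      · rw [hx]
        simp
        have := min_le_left p (1 - p)
        nlinarith
    · rw [Finset.not_nonempty_iff_eq_empty] at hne
      rw [hne]
      simp

/-- adjacency matrix with rows and columns `a`, `b` removed -/
noncomputable def A0 {n : ℕ} (a b : Fin n) (G : SimpleGraph (Fin n)) (u v : Fin n) : ℝ :=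
  if (u = a ∨ u = b) ∨ (v = a ∨ v = b) then 0 else adj G u v

lemma A0_gr {n : ℕ} (a b : Fin n) (ξ ω : Sym2 (Fin n) → Bool) (hξ : ∀ i, b ∉ i → ξ i = ω i) :
    A0 a b (gr ξ) = A0 a b (gr ω) := by
  funext u v
  unfold A0
  by_cases h : (u = a ∨ u = b) ∨ (v = a ∨ v = b)
  · simp [h]
  · simp only [h, if_false]
    have h1 : b ∉ s(u, v) := by
      rw [Sym2.mem_iff]
      push Not at h
      rintro (h' | h')
      · exact h.1.2 h'.symm
      · exact h.2.2 h'.symm
    have h2 : (gr ξ).Adj u v ↔ (gr ω).Adj u v := by
      unfold gr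
      simp only [hξ _ h1]
    unfold adj
    exact if_congr h2 rfl rfl

/-- union bound over a net that depends only on the graph without `a`, `b` -/
theorem prob_net (hBIT : S_BIT) (hMIX : S_MIX) {n : ℕ} {p : ℝ} (h0 : 0 < p) (h1 : p < 1)
    (a b : Fin n) (hab : a ≠ b) (Z : (Fin n → Fin n → ℝ) → Finset (Fin n → ℝ)) (M : ℝ)
    (hM : ∀ A, ((Z A).card : ℝ) ≤ M) (U : (Fin n → ℝ) → Finset (Fin n))
    (hU : ∀ z v, v ∈ U z → v ≠ a ∧ v ≠ b) (t s : ℕ) :
    Pr n p (fun G => ∃ z ∈ Z (A0 a b G), s ≤ (U z).card ∧
      ((U z).filter (fun v => adj G a v ≠ adj G b v)).card ≤ t)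
      ≤ M * (2 ^ t * (1 - min p (1 - p) / 2) ^ s) := by
  have hq0 : 0 ≤ 1 - min p (1 - p) / 2 := by
    have := min_le_left p (1 - p)
    linarith
  have hq1 : 1 - min p (1 - p) / 2 ≤ 1 := by
    have : 0 ≤ min p (1 - p) := le_min h0.le (by linarith)
    linarith
  rw [Pr_eq_EB hBIT, hMIX (Sym2 (Fin n)) p (fun i => b ∈ i)]
  calc _ ≤ EB p (fun _ : Sym2 (Fin n) → Bool => M * (2 ^ t * (1 - min p (1 - p) / 2) ^ s)) := by
        apply EB_mono h0 h1
        intro ω
        calc _ ≤ EB p (fun η : Sym2 (Fin n) → Bool => ∑ z ∈ (Z (A0 a b (gr ω))).filter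
                (fun z => s ≤ (U z).card), 2 ^ t * ∏ v ∈ U z,
                  (if ω s(a, v) ≠ η s(b, v) then (1/2 : ℝ) else 1)) := by
              apply EB_mono h0 h1
              intro η
              obtain ⟨ξ, hξ⟩ : ∃ ξ : Sym2 (Fin n) → Bool,
                  ξ = (fun i => if b ∈ i then η i else ω i) := ⟨_, rfl⟩
              have hξ1 : ∀ i, b ∉ i → ξ i = ω i := by
                intro i hi; rw [hξ]; simp [hi]
              have hξ2 : ∀ i, b ∈ i → ξ i = η i := by
                intro i hi; rw [hξ]; simp [hi]
              have hξ3 : (fun i => @ite Bool (b ∈ i) (Classical.propDecidable _) (η i) (ω i)) = ξ := by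
                rw [hξ]
                funext i
                congr
              rw [hξ3]
              have hnn : ∀ z : Fin n → ℝ, 0 ≤ 2 ^ t * ∏ v ∈ U z,
                  (if ω s(a, v) ≠ η s(b, v) then (1/2 : ℝ) else 1) := by
                intro z
                apply mul_nonneg (by positivity)
                apply Finset.prod_nonneg
                intro v _
                split_ifs <;> norm_num
              split_ifs with hex
              · obtain ⟨z, hz, hs, ht⟩ := hex
                rw [A0_gr a b ξ ω hξ1] at hz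
                have hz' : z ∈ (Z (A0 a b (gr ω))).filter (fun z => s ≤ (U z).card) :=
                  Finset.mem_filter.2 ⟨hz, hs⟩
                refine le_trans ?_ (Finset.single_le_sum (fun z _ => hnn z) hz')
                have e1 : ∀ v ∈ U z, (adj (gr ξ) a v ≠ adj (gr ξ) b v) ↔
                    (ω s(a, v) ≠ η s(b, v)) := by
                  intro v hv
                  obtain ⟨hva, hvb⟩ := hU z v hv
                  have h2 : b ∉ s(a, v) := by
                    rw [Sym2.mem_iff]
                    rintro (h' | h')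
                    · exact hab h'.symm
                    · exact hvb h'.symm
                  have h3 : b ∈ s(b, v) := Sym2.mem_mk_left _ _
                  unfold adj gr
                  simp only [hξ1 _ h2, hξ2 _ h3, ne_eq, hva.symm, hvb.symm,
                    not_false_eq_true, true_and]
                  rcases Bool.eq_false_or_eq_true (ω s(a, v)) with hx | hx <;>
                  rcases Bool.eq_false_or_eq_true (η s(b, v)) with hy | hy <;>
                  simp [hx, hy]
                rw [Finset.filter_congr e1] at ht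
                rw [Finset.prod_ite, Finset.prod_const_one, mul_one, Finset.prod_const]
                have h4 : (1/2 : ℝ) ^ t ≤ (1/2 : ℝ) ^ ((U z).filter
                    (fun v => ω s(a, v) ≠ η s(b, v))).card :=
                  pow_le_pow_of_le_one (by norm_num) (by norm_num) ht
                have h5 : (2 : ℝ) ^ t * (1/2 : ℝ) ^ t = 1 := by
                  rw [← mul_pow]; norm_num
                calc (1 : ℝ) = (2 : ℝ) ^ t * (1/2 : ℝ) ^ t := h5.symm
                  _ ≤ _ := mul_le_mul_of_nonneg_left h4 (by positivity)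
              · exact Finset.sum_nonneg (fun z _ => hnn z)
          _ = ∑ z ∈ (Z (A0 a b (gr ω))).filter (fun z => s ≤ (U z).card),
                2 ^ t * EB p (fun η : Sym2 (Fin n) → Bool => ∏ v ∈ U z,
                  (if ω s(a, v) ≠ η s(b, v) then (1/2 : ℝ) else 1)) := by
              rw [EB_sum]
              apply Finset.sum_congr rfl
              intro z _
              rw [EB_mul_const]
          _ ≤ ∑ z ∈ (Z (A0 a b (gr ω))).filter (fun z => s ≤ (U z).card),
                2 ^ t * (1 - min p (1 - p) / 2) ^ s := by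
              apply Finset.sum_le_sum
              intro z hz
              apply mul_le_mul_of_nonneg_left _ (by positivity)
              refine le_trans (EB_disagree h0 h1 b (U z) (fun v => ω s(a, v))) ?_
              exact pow_le_pow_of_le_one hq0 hq1 (Finset.mem_filter.1 hz).2
          _ ≤ M * (2 ^ t * (1 - min p (1 - p) / 2) ^ s) := by
              rw [Finset.sum_const, nsmul_eq_mul]
              apply mul_le_mul_of_nonneg_right
              · refine le_trans ?_ (hM (A0 a b (gr ω)))
                exact_mod_cast Finset.card_filter_le _ _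
              · exact mul_nonneg (by positivity) (pow_nonneg hq0 _)
    _ = _ := EB_const p _

end Pool.Agent.W766.ChG3
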