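import Pool.Agent.W766.ChG3.Spec
import Pool.Agent.W766.ChG3.Prob

set_option autoImplicit false
open scoped Classical
open Finset Filter Topology

namespace Pool.Agent.W766.ChG3
open Pool.Agent.W839.Ch

lemma adj_symm {n : ℕ} (G : SimpleGraph (Fin n)) (u v : Fin n) : adj G u v = adj G v u := by
  unfold adj
  simp only [G.adj_comm u v]

lemma A0_symm {n : ℕ} (a b : Fin n) (G : SimpleGraph (Fin n)) (u v : Fin n) :
    A0 a b G u v = A0 a b G v u := by
  unfold A0
  rw [adj_symm G u v]
  congr 1
  exact propext or_comm

lemma adj_nonneg {n : ℕ} (G : SimpleGraph (Fin n)) (u v : Fin n) : 0 ≤ adj G u v := by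
  unfold adj; split_ifs <;> norm_num

lemma adj_le_one {n : ℕ} (G : SimpleGraph (Fin n)) (u v : Fin n) : adj G u v ≤ 1 := by
  unfold adj; split_ifs <;> norm_num

/-- if `y a = y b = 0`, the matrices `A` and `A0` agree off `a, b` -/
lemma A0_mul {n : ℕ} (a b : Fin n) (G : SimpleGraph (Fin n)) (y : Fin n → ℝ) (ha : y a = 0)
    (hb : y b = 0) (v : Fin n) (hva : v ≠ a) (hvb : v ≠ b) :
    ∑ u, A0 a b G v u * y u = ∑ u, adj G v u * y u := by
  apply Finset.sum_congr rfl
  intro u _
  unfold A0
  by_cases hu : u = a ∨ u = b
  · have : y u = 0 := by rcases hu with rfl | rfl <;> assumption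
    simp [this]
  · simp [hu, hva, hvb]

lemma A0_mul' {n : ℕ} (a b : Fin n) (G : SimpleGraph (Fin n)) (y : Fin n → ℝ)
    (v : Fin n) (hv : v = a ∨ v = b) :
    ∑ u, A0 a b G v u * y u = 0 := by
  apply Finset.sum_eq_zero
  intro u _
  unfold A0
  simp [hv]

theorem card_win_le {n : ℕ} (a b : Fin n) (G : SimpleGraph (Fin n)) (E : Eig (A0 a b G))
    (c κ : ℝ) (hNA : NA c κ G) (l : ℝ) :
    ((E.win l (κ * Real.sqrt n)).card : ℝ) ≤ c * n + 4 := by
  have hs2 : Real.sqrt n ^ 2 = n := Real.sq_sqrt (Nat.cast_nonneg n)
  set I := E.win l (κ * Real.sqrt n) with hI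
  -- the linear map of combinations
  let L : (I → ℝ) →ₗ[ℝ] (Fin n → ℝ) :=
    { toFun := fun k v => ∑ i : I, k i * E.e i v
      map_add' := by
        intro k k'
        funext v
        simp [add_mul, Finset.sum_add_distrib]
      map_smul' := by
        intro t k
        funext v
        simp [Finset.mul_sum, mul_assoc] }
  have hLapp : ∀ (k : I → ℝ) v, L k v = ∑ i : I, k i * E.e i v := fun _ _ => rfl
  have hLc : ∀ (k : I → ℝ) (i : I), E.c (L k) i = k i := by
    intro k i
    unfold Eig.c
    simp_rw [hLapp, Finset.sum_mul]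
    rw [Finset.sum_comm]
    have : ∀ j : I, ∑ v, k j * E.e j v * E.e i v = if j = i then k j else 0 := by
      intro j
      have h := E.orth j i
      calc ∑ v, k j * E.e j v * E.e i v = k j * ∑ v, E.e j v * E.e i v := by
            rw [Finset.mul_sum]
            apply Finset.sum_congr rfl
            intro v _
            ring
        _ = _ := by
            rw [h]
            by_cases hji : j = i
            · simp [hji]
            · have : (j : Fin n) ≠ i := fun h => hji (Subtype.ext h)
              simp [hji, this]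
    simp_rw [this]
    simp
  have hLinj : Function.Injective L := by
    intro k k' hkk
    funext i
    rw [← hLc k i, ← hLc k' i, hkk]
  have hLc0 : ∀ (k : I → ℝ) (i : Fin n), i ∉ I → E.c (L k) i = 0 := by
    intro k i hi
    unfold Eig.c
    simp_rw [hLapp, Finset.sum_mul]
    rw [Finset.sum_comm]
    apply Finset.sum_eq_zero
    intro j _
    have h := E.orth j i
    have hji : (j : Fin n) ≠ i := fun h => hi (h ▸ j.2)
    calc ∑ v, k j * E.e j v * E.e i v = k j * ∑ v, E.e j v * E.e i v := by
          rw [Finset.mul_sum]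
          apply Finset.sum_congr rfl
          intro v _
          ring
      _ = 0 := by rw [h]; simp [hji]
  -- the four functionals
  let φ : (Fin n → ℝ) →ₗ[ℝ] (Fin 4 → ℝ) :=
    { toFun := fun y => ![y a, y b, ∑ u, adj G a u * y u, ∑ u, adj G b u * y u]
      map_add' := by
        intro y z
        funext i
        fin_cases i <;> simp [mul_add, Finset.sum_add_distrib]
      map_smul' := by
        intro t y
        funext i
        fin_cases i <;> simp [Finset.mul_sum, mul_left_comm] }
  let K : Submodule ℝ (I → ℝ) := LinearMap.ker (φ.comp L)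
  have hK : (I.card : ℝ) ≤ Module.finrank ℝ K + 4 := by
    have h1 := LinearMap.finrank_range_add_finrank_ker (φ.comp L)
    have h2 : Module.finrank ℝ (LinearMap.range (φ.comp L)) ≤ 4 := by
      have := Submodule.finrank_le (LinearMap.range (φ.comp L))
      simpa using this
    have h3 : Module.finrank ℝ (I → ℝ) = I.card := by simp
    rw [h3] at h1
    have h4 : I.card ≤ Module.finrank ℝ K + 4 := by
      change I.card ≤ Module.finrank ℝ (LinearMap.ker (φ.comp L)) + 4
      omega
    exact_mod_cast h4
  have hW : (Module.finrank ℝ (Submodule.map L K) : ℝ) ≤ c * n := by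
    apply hNA l (Submodule.map L K)
    rintro y ⟨k, hk, rfl⟩
    have hk' : φ (L k) = 0 := hk
    have k0 := congrFun hk' 0
    have k1 := congrFun hk' 1
    have k2 := congrFun hk' 2
    have k3 := congrFun hk' 3
    have ya : L k a = 0 := k0
    have yb : L k b = 0 := k1
    have Ya : ∑ u, adj G a u * L k u = 0 := k2
    have Yb : ∑ u, adj G b u * L k u = 0 := k3
    have e1 : ∀ v, ∑ u, adj G v u * L k u = ∑ u, A0 a b G v u * L k u := by
      intro v
      by_cases hv : v = a ∨ v = b
      · rw [A0_mul' a b G _ v hv]
        rcases hv with rfl | rfl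
        · exact Ya
        · exact Yb
      · push Not at hv
        exact (A0_mul a b G _ ya yb v hv.1 hv.2).symm
    simp_rw [e1]
    have h1 := E.parseval (fun v => ∑ u, A0 a b G v u * L k u - l * L k v)
    change sn (fun v => ∑ u, A0 a b G v u * L k u - l * L k v) ≤ _
    rw [h1, E.parseval (L k), Finset.mul_sum]
    apply Finset.sum_le_sum
    intro i _
    rw [E.c_apply (A0_symm a b G), mul_pow]
    by_cases hi : i ∈ I
    · apply mul_le_mul_of_nonneg_right _ (sq_nonneg _)
      rw [hI] at hi
      unfold Eig.win at hi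
      have := (Finset.mem_filter.1 hi).2
      rwa [mul_pow, hs2] at this
    · rw [hLc0 k i hi]
      simp
  have hW2 : Module.finrank ℝ (Submodule.map L K) = Module.finrank ℝ K :=
    (LinearEquiv.finrank_eq (Submodule.equivMapOfInjective L hLinj K)).symm
  rw [hW2] at hW
  linarith

end Pool.Agent.W766.ChG3
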