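import Pool.Agent.W766.ChG3.Dim

set_option autoImplicit false
open scoped Classical
open Finset Filter Topology

namespace Pool.Agent.W766.ChG3
open Pool.Agent.W839.Ch

lemma sn_nonneg {n : ℕ} (x : Fin n → ℝ) : 0 ≤ sn x := Finset.sum_nonneg (fun _ _ => sq_nonneg _)

/-- operator norm in vector form -/
lemma opn_vec {n : ℕ} {p C : ℝ} {G : SimpleGraph (Fin n)} (h : OpN p C G) (z : Fin n → ℝ) :
    sn (fun v => ∑ u, (adj G v u - if v = u then 0 else p) * z u) ≤ C ^ 2 * n * sn z := by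
  set Ez : Fin n → ℝ := fun v => ∑ u, (adj G v u - if v = u then 0 else p) * z u with hEz
  have h1 := h Ez z
  have h2 : ∑ u, ∑ v, (adj G u v - if u = v then 0 else p) * Ez u * z v = sn Ez := by
    unfold sn
    apply Finset.sum_congr rfl
    intro v _
    rw [pow_two]
    conv_rhs => rw [hEz]
    simp only
    rw [Finset.sum_mul]
    apply Finset.sum_congr rfl
    intro u _
    ring
  rw [h2] at h1
  rcases (sn_nonneg Ez).eq_or_lt with h3 | h3
  · rw [← h3]
    have := sn_nonneg z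
    positivity
  · have : sn Ez * sn Ez ≤ (C ^ 2 * n * sn z) * sn Ez := by nlinarith
    exact le_of_mul_le_mul_right this h3

lemma four_sq (x r e q : ℝ) : (x + r - e + q) ^ 2 ≤ 4 * (x ^ 2 + r ^ 2 + e ^ 2 + q ^ 2) := by
  nlinarith [sq_nonneg (x - r), sq_nonneg (x + e), sq_nonneg (x - q),
        sq_nonneg (r + e), sq_nonneg (r - q), sq_nonneg (e + q)]

/-- many coordinates are typical -/
theorem typical {n : ℕ} {p C c1 ε1 C0 c5 δ1 : ℝ} {G : SimpleGraph (Fin n)} (hn : 0 < n)
    (hp0 : 0 < p) (hp1 : p < 1)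
    (hO : OpN p C G) (hS : SP c1 ε1 G) (hc1 : 0 < c1)
    (hn1 : 2 ≤ ε1 * n / 2) (a b : Fin n) (y : Fin n → ℝ) (ya : y a = 0) (yb : y b = 0) (l : ℝ)
    (hl : l ^ 2 ≤ C0 ^ 2 * n)
    (hr : ∑ v, (∑ u, A0 a b G v u * y u - l * y v) ^ 2 ≤ δ1 ^ 2 * n)
    (hc : 4 * (C0 ^ 2 * c5 ^ 2 + δ1 ^ 2 + C ^ 2 * c5 ^ 2 + c5 ^ 2) < c1 * (sn y - c5 ^ 2)) :
    ε1 * n / 2 ≤ ((Finset.univ.filter (fun v : Fin n => v ≠ a ∧ v ≠ b ∧
      c5 ^ 2 ≤ n * y v ^ 2)).card : ℝ) := by
  by_contra hcon
  push Not at hcon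
  have hn' : (0 : ℝ) < n := by exact_mod_cast hn
  set T := Finset.univ.filter (fun v : Fin n => v ≠ a ∧ v ≠ b ∧ c5 ^ 2 ≤ n * y v ^ 2) with hT
  set T' : Finset (Fin n) := insert a (insert b T) with hT'
  have hTc : (T'.card : ℝ) ≤ ε1 * n := by
    have h1 : T'.card ≤ T.card + 2 := by
      rw [hT']
      have h1 := Finset.card_insert_le a (insert b T)
      have h2 := Finset.card_insert_le b T
      omega
    have h2 : (T'.card : ℝ) ≤ T.card + 2 := by exact_mod_cast h1
    linarith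
  set yT : Fin n → ℝ := fun v => if v ∈ T then y v else 0 with hyT
  set z : Fin n → ℝ := fun v => if v ∈ T then 0 else y v with hz
  have hsum : ∀ v, y v = yT v + z v := by
    intro v
    simp only [hyT, hz]
    split_ifs <;> simp
  have hsn : sn y = sn yT + sn z := by
    unfold sn
    rw [← Finset.sum_add_distrib]
    apply Finset.sum_congr rfl
    intro v _
    simp only [hyT, hz]
    split_ifs <;> ring
  have hz1 : sn z ≤ c5 ^ 2 := by
    have : ∀ v, z v ^ 2 ≤ c5 ^ 2 / n := by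
      intro v
      simp only [hz]
      by_cases hv : v ∈ T
      · simp only [hv, if_true]
        have : 0 ≤ c5 ^ 2 / n := by positivity
        simpa using this
      · simp only [hv, if_false]
        by_cases hva : v = a
        · rw [hva, ya]; have : 0 ≤ c5 ^ 2 / n := by positivity
          simpa using this
        · by_cases hvb : v = b
          · rw [hvb, yb]; have : 0 ≤ c5 ^ 2 / n := by positivity
            simpa using this
          · rw [hT] at hv
            simp only [Finset.mem_filter, Finset.mem_univ, true_and, hva, hvb, not_false_eq_true,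
              ne_eq, not_le] at hv
            rw [le_div_iff₀ hn']
            linarith
    calc sn z ≤ ∑ _v : Fin n, c5 ^ 2 / n := Finset.sum_le_sum (fun v _ => this v)
      _ = c5 ^ 2 := by
        rw [Finset.sum_const, Finset.card_univ, Fintype.card_fin, nsmul_eq_mul]
        field_simp
  have hsp := hS T' hTc yT (by
    intro v hv
    have : v ∉ T := fun h => hv (Finset.mem_insert_of_mem (Finset.mem_insert_of_mem h))
    simp [hyT, this]) (-(p * ∑ u, z u))
  set Ez : Fin n → ℝ := fun v => ∑ u, (adj G v u - if v = u then 0 else p) * z u with hEz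
  have hEzn := opn_vec hO z
  rw [← hEz] at hEzn
  -- pointwise identity off T'
  have hpt : ∀ v ∈ T'ᶜ, (∑ u, adj G v u * yT u - -(p * ∑ u, z u)) ^ 2
      ≤ 4 * (l ^ 2 * z v ^ 2 + (∑ u, A0 a b G v u * y u - l * y v) ^ 2 + Ez v ^ 2 + z v ^ 2) := by
    intro v hv
    rw [Finset.mem_compl, hT'] at hv
    simp only [Finset.mem_insert, not_or] at hv
    obtain ⟨hva, hvb, hvT⟩ := hv
    have h1 : ∑ u, adj G v u * yT u = ∑ u, adj G v u * y u - ∑ u, adj G v u * z u := by
      rw [← Finset.sum_sub_distrib]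
      apply Finset.sum_congr rfl
      intro u _
      rw [hsum u]; ring
    have h2 : ∑ u, adj G v u * y u = ∑ u, A0 a b G v u * y u :=
      (A0_mul a b G y ya yb v hva hvb).symm
    have h3 : ∑ u, adj G v u * z u = Ez v + p * ∑ u, z u - p * z v := by
      rw [hEz]
      simp only
      have : ∀ u, (adj G v u - if v = u then 0 else p) * z u
          = adj G v u * z u - p * z u + (if v = u then p * z u else 0) := by
        intro u
        split_ifs <;> ring
      simp_rw [this]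
      rw [Finset.sum_add_distrib, Finset.sum_sub_distrib, Finset.sum_ite_eq, Finset.mul_sum]
      simp only [Finset.mem_univ, if_true]
      ring
    have h4 : y v = z v := by simp [hz, hvT]
    have h5 : ∑ u, adj G v u * yT u - -(p * ∑ u, z u)
        = l * z v + (∑ u, A0 a b G v u * y u - l * y v) - Ez v + p * z v := by
      rw [h1, h2, h3, ← h4]; ring
    rw [h5]
    set r := ∑ u, A0 a b G v u * y u - l * y v
    have h6 : (p * z v) ^ 2 ≤ z v ^ 2 := by
      rw [mul_pow]
      have : p ^ 2 ≤ 1 := by nlinarith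
      nlinarith [sq_nonneg (z v)]
    have h7 : (l * z v + r - Ez v + p * z v) ^ 2
        ≤ 4 * ((l * z v) ^ 2 + r ^ 2 + Ez v ^ 2 + (p * z v) ^ 2) := by
      exact four_sq _ _ _ _
    have h8 : (l * z v) ^ 2 = l ^ 2 * z v ^ 2 := mul_pow _ _ _
    linarith
  have hsum2 : ∑ v ∈ T'ᶜ, (∑ u, adj G v u * yT u - -(p * ∑ u, z u)) ^ 2
      ≤ 4 * (l ^ 2 * sn z + δ1 ^ 2 * n + C ^ 2 * n * sn z + sn z) := by
    calc _ ≤ ∑ v ∈ T'ᶜ, 4 * (l ^ 2 * z v ^ 2 + (∑ u, A0 a b G v u * y u - l * y v) ^ 2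
            + Ez v ^ 2 + z v ^ 2) := Finset.sum_le_sum hpt
      _ ≤ ∑ v, 4 * (l ^ 2 * z v ^ 2 + (∑ u, A0 a b G v u * y u - l * y v) ^ 2
            + Ez v ^ 2 + z v ^ 2) := by
          apply Finset.sum_le_sum_of_subset_of_nonneg (Finset.subset_univ _)
          intro v _ _
          positivity
      _ = 4 * (l ^ 2 * sn z + ∑ v, (∑ u, A0 a b G v u * y u - l * y v) ^ 2 + sn Ez + sn z) := by
          unfold sn
          rw [← Finset.mul_sum, Finset.sum_add_distrib, Finset.sum_add_distrib,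
            Finset.sum_add_distrib, Finset.mul_sum]
      _ ≤ _ := by linarith
  have hz0 := sn_nonneg z
  have h8 : c1 * n * (sn y - sn z) ≤ 4 * (l ^ 2 * sn z + δ1 ^ 2 * n + C ^ 2 * n * sn z + sn z) := by
    have : sn yT = sn y - sn z := by linarith
    rw [← this]
    linarith
  have hn1' : (1 : ℝ) ≤ n := by exact_mod_cast hn
  have h9 : l ^ 2 * sn z ≤ C0 ^ 2 * n * c5 ^ 2 :=
    mul_le_mul hl hz1 hz0 (by positivity)
  have h10 : C ^ 2 * n * sn z ≤ C ^ 2 * n * c5 ^ 2 :=
    mul_le_mul_of_nonneg_left hz1 (by positivity)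
  have h11 : sn z ≤ n * c5 ^ 2 := by nlinarith [sq_nonneg c5]
  have h12 : c1 * n * (sn y - c5 ^ 2) ≤ c1 * n * (sn y - sn z) :=
    mul_le_mul_of_nonneg_left (by linarith) (by positivity)
  have h13 : n * (c1 * (sn y - c5 ^ 2))
      ≤ n * (4 * (C0 ^ 2 * c5 ^ 2 + δ1 ^ 2 + C ^ 2 * c5 ^ 2 + c5 ^ 2)) := by nlinarith
  have h14 := le_of_mul_le_mul_left h13 hn'
  linarith

/-- few coordinates where two vectors differ a lot -/
lemma few_diff {n : ℕ} (y z : Fin n → ℝ) (t : ℝ) (S : Finset (Fin n))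
    (hS : ∀ v ∈ S, t ≤ n * (y v - z v) ^ 2) :
    t * (S.card : ℝ) ≤ n * sn (fun v => y v - z v) := by
  calc t * (S.card : ℝ) = ∑ v ∈ S, t := by rw [Finset.sum_const, nsmul_eq_mul]; ring
    _ ≤ ∑ v ∈ S, n * (y v - z v) ^ 2 := Finset.sum_le_sum hS
    _ ≤ ∑ v, n * (y v - z v) ^ 2 := by
        apply Finset.sum_le_sum_of_subset_of_nonneg (Finset.subset_univ _)
        intro v _ _
        positivity
    _ = _ := by unfold sn; rw [Finset.mul_sum]

end Pool.Agent.W766.ChG3
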