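import Pool.Agent.W839.Ch.Stubs

set_option autoImplicit false
open scoped Classical
open Finset Filter Topology

namespace Pool.Agent.W766.ChG3
open Pool.Agent.W839.Ch

/-! ## counting integer vectors -/

lemma geom_eq (x : ℝ) (hx1 : x < 1) (N : ℕ) :
    ∑ k ∈ Finset.Icc (-(N:ℤ)) N, x ^ k.natAbs = (1 + x - 2 * x ^ (N + 1)) / (1 - x) := by
  have h1 : (1 : ℝ) - x ≠ 0 := by linarith
  induction N with
  | zero =>
    simp
    field_simp
    ring
  | succ N ih =>
    have e : Finset.Icc (-((N + 1 : ℕ) : ℤ)) ((N + 1 : ℕ) : ℤ)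
        = insert (-((N + 1 : ℕ) : ℤ)) (insert ((N + 1 : ℕ) : ℤ) (Finset.Icc (-(N : ℤ)) N)) := by
      ext k
      simp only [Finset.mem_Icc, Finset.mem_insert]
      push_cast
      omega
    rw [e, Finset.sum_insert, Finset.sum_insert, ih]
    · have e1 : (-((N + 1 : ℕ) : ℤ)).natAbs = N + 1 := by omega
      have e2 : (((N + 1 : ℕ) : ℤ)).natAbs = N + 1 := by omega
      rw [e1, e2]
      field_simp
      ring
    · simp
    · simp only [Finset.mem_insert, Finset.mem_Icc]
      push_cast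
      omega

lemma geom_le (x : ℝ) (hx0 : 0 < x) (hx1 : x < 1) (N : ℕ) :
    ∑ k ∈ Finset.Icc (-(N:ℤ)) N, x ^ k.natAbs ≤ (1 + x) / (1 - x) := by
  rw [geom_eq x hx1 N]
  have h1 : (0 : ℝ) < 1 - x := by linarith
  apply div_le_div_of_nonneg_right _ h1.le
  have : 0 ≤ x ^ (N + 1) := by positivity
  linarith

/-- the integer vectors supported on `I` with `∑ |k i| ≤ N` -/
noncomputable def ivec {n : ℕ} (I : Finset (Fin n)) (N : ℕ) : Finset (Fin n → ℤ) :=
  (Fintype.piFinset (fun i : Fin n => if i ∈ I then Finset.Icc (-(N:ℤ)) N else {0})).filter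
    (fun k => ∑ i, (k i).natAbs ≤ N)

lemma mem_ivec {n : ℕ} (I : Finset (Fin n)) (N : ℕ) (k : Fin n → ℤ)
    (h0 : ∀ i, i ∉ I → k i = 0) (h1 : ∑ i, (k i).natAbs ≤ N) : k ∈ ivec I N := by
  unfold ivec
  rw [Finset.mem_filter, Fintype.mem_piFinset]
  refine ⟨?_, h1⟩
  intro i
  by_cases hi : i ∈ I
  · have : (k i).natAbs ≤ N :=
      le_trans (Finset.single_le_sum (f := fun i => (k i).natAbs) (fun _ _ => Nat.zero_le _)
        (Finset.mem_univ i)) h1
    simp only [hi, if_true, Finset.mem_Icc]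
    omega
  · simp [hi, h0 i hi]

lemma card_ivec_le {n : ℕ} (I : Finset (Fin n)) (N : ℕ) (x : ℝ) (hx0 : 0 < x) (hx1 : x < 1) :
    ((ivec I N).card : ℝ) ≤ (x ^ N)⁻¹ * ((1 + x) / (1 - x)) ^ I.card := by
  have hxN : 0 < x ^ N := by positivity
  rw [← div_eq_inv_mul, le_div_iff₀ hxN]
  calc ((ivec I N).card : ℝ) * x ^ N = ∑ k ∈ ivec I N, x ^ N := by
        rw [Finset.sum_const, nsmul_eq_mul]
    _ ≤ ∑ k ∈ ivec I N, ∏ i, x ^ (k i).natAbs := by
        apply Finset.sum_le_sum
        intro k hk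
        rw [Finset.prod_pow_eq_pow_sum]
        apply pow_le_pow_of_le_one hx0.le hx1.le
        exact (Finset.mem_filter.1 hk).2
    _ ≤ ∑ k ∈ Fintype.piFinset (fun i : Fin n => if i ∈ I then Finset.Icc (-(N:ℤ)) N else {0}),
          ∏ i, x ^ (k i).natAbs := by
        apply Finset.sum_le_sum_of_subset_of_nonneg
        · exact Finset.filter_subset _ _
        · intro k _ _
          exact Finset.prod_nonneg (fun i _ => by positivity)
    _ = ∏ i, ∑ j ∈ (if i ∈ I then Finset.Icc (-(N:ℤ)) N else {0}), x ^ j.natAbs := by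
        rw [Finset.prod_univ_sum]
    _ ≤ ∏ i, (if i ∈ I then (1 + x) / (1 - x) else 1) := by
        apply Finset.prod_le_prod
        · intro i _
          exact Finset.sum_nonneg (fun j _ => by positivity)
        · intro i _
          by_cases hi : i ∈ I
          · simp only [hi, if_true]
            exact geom_le x hx0 hx1 N
          · simp [hi]
    _ = ((1 + x) / (1 - x)) ^ I.card := by
        rw [Finset.prod_ite_mem, Finset.univ_inter, Finset.prod_const]

end Pool.Agent.W766.ChG3
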