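import Pool.Agent.W766.ChG3.Net

set_option autoImplicit false
open scoped Classical
open Finset Filter Topology

namespace Pool.Agent.W766.ChG3
open Pool.Agent.W839.Ch

lemma resid_le {n : ℕ} {p C0 δ0 ε δ1 : ℝ} {G : SimpleGraph (Fin n)}
    (hD : DG p δ0 G) (a b : Fin n) (hab : a ≠ b)
    (θ : ℝ) (w : Fin n → ℝ) (hw1 : sn w = 1) (hθ : θ ^ 2 * n ≤ C0 ^ 2) (hwab : w a = w b)
    (heig : ∀ v, v ≠ a → v ≠ b → ∑ u, adj G v u * w u = θ * deg G v * w v)
    (hwa : w a ^ 2 ≤ ε ^ 2) (hδ1 : 2 * C0 ^ 2 * δ0 ^ 2 + 8 * ε ^ 2 ≤ δ1 ^ 2)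
    (y : Fin n → ℝ) (hy : y = fun v => if v = a ∨ v = b then 0 else w v) :
    ∑ v, (∑ u, A0 a b G v u * y u - (θ * p * n) * y v) ^ 2 ≤ δ1 ^ 2 * n := by
  have ya : y a = 0 := by simp [hy]
  have yb : y b = 0 := by simp [hy]
  have hpt : ∀ v, (∑ u, A0 a b G v u * y u - (θ * p * n) * y v) ^ 2
      ≤ 2 * (C0 ^ 2 * δ0 ^ 2 * n) * w v ^ 2 + 8 * ε ^ 2 := by
    intro v
    by_cases hv : v = a ∨ v = b
    · rw [A0_mul' a b G y v hv]
      have : y v = 0 := by rcases hv with rfl | rfl <;> assumption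
      rw [this]
      have h0 : (0 - (θ * p * n) * 0 : ℝ) ^ 2 = 0 := by ring
      rw [h0]
      positivity
    · push Not at hv
      obtain ⟨hva, hvb⟩ := hv
      rw [A0_mul a b G y ya yb v hva hvb]
      have h1 : ∑ u, adj G v u * y u = ∑ u, adj G v u * w u - (adj G v a + adj G v b) * w a := by
        have h2 : ∀ u, adj G v u * y u = adj G v u * w u - (if u = a then adj G v a * w a else 0)
            - (if u = b then adj G v b * w a else 0) := by
          intro u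
          rw [hy]
          simp only
          by_cases hua : u = a
          · have hub : u ≠ b := by rw [hua]; exact hab
            simp [hua, hab]
          · by_cases hub : u = b
            · simp [hub, hab.symm, hwab]
            · simp [hua, hub]
        simp_rw [h2]
        rw [Finset.sum_sub_distrib, Finset.sum_sub_distrib, Finset.sum_ite_eq', Finset.sum_ite_eq']
        simp only [Finset.mem_univ, if_true]
        ring
      have hyv : y v = w v := by simp [hy, hva, hvb]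
      rw [h1, heig v hva hvb, hyv]
      have h3 : θ * deg G v * w v - (adj G v a + adj G v b) * w a - θ * p * n * w v
          = θ * (deg G v - p * n) * w v - (adj G v a + adj G v b) * w a := by ring
      rw [h3]
      have h4 : (θ * (deg G v - p * n) * w v - (adj G v a + adj G v b) * w a) ^ 2
          ≤ 2 * (θ * (deg G v - p * n) * w v) ^ 2 + 2 * ((adj G v a + adj G v b) * w a) ^ 2 := by
        nlinarith [sq_nonneg (θ * (deg G v - p * n) * w v + (adj G v a + adj G v b) * w a)]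
      have h5 : (θ * (deg G v - p * n) * w v) ^ 2 ≤ (C0 ^ 2 * δ0 ^ 2 * n) * w v ^ 2 := by
        rw [mul_pow, mul_pow]
        apply mul_le_mul_of_nonneg_right _ (sq_nonneg _)
        have h6 : (deg G v - p * n) ^ 2 ≤ (δ0 * n) ^ 2 := by
          have := hD v
          exact sq_le_sq' (by linarith [(abs_le.1 this).1]) (abs_le.1 this).2
        calc θ ^ 2 * (deg G v - p * n) ^ 2 ≤ θ ^ 2 * (δ0 * n) ^ 2 :=
              mul_le_mul_of_nonneg_left h6 (sq_nonneg _)
          _ = (θ ^ 2 * n) * (δ0 ^ 2 * n) := by ring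
          _ ≤ C0 ^ 2 * (δ0 ^ 2 * n) := mul_le_mul_of_nonneg_right hθ (by positivity)
          _ = _ := by ring
      have h7 : ((adj G v a + adj G v b) * w a) ^ 2 ≤ 4 * ε ^ 2 := by
        rw [mul_pow]
        have h8 : (adj G v a + adj G v b) ^ 2 ≤ 4 := by
          have e1 := adj_nonneg G v a
          have e2 := adj_nonneg G v b
          have e3 := adj_le_one G v a
          have e4 := adj_le_one G v b
          nlinarith
        exact mul_le_mul h8 hwa (sq_nonneg _) (by norm_num)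
      linarith
  calc _ ≤ ∑ v, (2 * (C0 ^ 2 * δ0 ^ 2 * n) * w v ^ 2 + 8 * ε ^ 2) :=
        Finset.sum_le_sum (fun v _ => hpt v)
    _ = 2 * (C0 ^ 2 * δ0 ^ 2 * n) * sn w + n * (8 * ε ^ 2) := by
        rw [Finset.sum_add_distrib, ← Finset.mul_sum, Finset.sum_const, Finset.card_univ,
          Fintype.card_fin, nsmul_eq_mul]
        rfl
    _ = (2 * C0 ^ 2 * δ0 ^ 2 + 8 * ε ^ 2) * n := by rw [hw1]; ring
    _ ≤ δ1 ^ 2 * n := mul_le_mul_of_nonneg_right hδ1 (Nat.cast_nonneg n)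

set_option maxHeartbeats 2000000 in
/-- the deterministic part, for unit vectors -/
theorem det1 {n : ℕ} {p C c1 ε1 C0 c5 δ1 δ0 ε δ δ2 κ h e τ c cN : ℝ} {Gm : ℕ}
    {G : SimpleGraph (Fin n)} (hn : 0 < n)
    (hp0 : 0 < p) (hp1 : p < 1) (hC0 : 0 < C0)
    (hO : OpN p C G) (hD : DG p δ0 G) (hS : SP c1 ε1 G) (hN : NA cN κ G) (hc1 : 0 < c1)
    (hn1 : 2 ≤ ε1 * n / 2) (a b : Fin n) (hab : a ≠ b)
    (hκ : 0 < κ) (hh : 0 < h) (hδ : 0 < δ) (hc5 : 0 < c5) (hc : 0 < c)
    (H1 : 4 * (C0 ^ 2 * c5 ^ 2 + δ1 ^ 2 + C ^ 2 * c5 ^ 2 + c5 ^ 2)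
      < c1 * (1 - 2 * ε ^ 2 - c5 ^ 2))
    (H2 : 2 * C0 ^ 2 * δ0 ^ 2 + 8 * ε ^ 2 ≤ δ1 ^ 2)
    (H3 : 2 * δ1 ^ 2 + 2 * δ ^ 2 ≤ δ2 ^ 2)
    (H4 : δ2 ^ 2 / κ ^ 2 + h ^ 2 ≤ e ^ 2)
    (H5 : 16 * e ^ 2 ≤ ε1 * c5 ^ 2)
    (H7 : 32 * e ^ 2 ≤ τ * c5 ^ 2)
    (H8 : c ≤ τ / 2) (H8' : c ≤ c5 / 4)
    (H9 : C0 / δ + 1 ≤ Gm)
    (hnet : ¬ ∃ z ∈ net κ h δ Gm (cN * n + 4) (A0 a b G), ⌈ε1 / 4 * n⌉₊ ≤ (typ c5 a b z).card ∧
      ((typ c5 a b z).filter (fun v => adj G a v ≠ adj G b v)).card ≤ ⌊τ * n⌋₊)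
    (θ : ℝ) (w : Fin n → ℝ) (hw1 : sn w = 1) (hθ : θ ^ 2 * n ≤ C0 ^ 2) (hwab : w a = w b)
    (heig : ∀ v, v ≠ a → v ≠ b → ∑ u, adj G v u * w u = θ * deg G v * w v)
    (hwa : w a ^ 2 ≤ ε ^ 2) :
    c * n ≤ ((Finset.univ.filter (fun v : Fin n => v ≠ a ∧ v ≠ b ∧ adj G a v ≠ adj G b v ∧
      c ^ 2 ≤ n * w v ^ 2)).card : ℝ) := by
  have hn' : (0 : ℝ) < n := by exact_mod_cast hn
  have hs : 0 < Real.sqrt n := Real.sqrt_pos.2 hn'
  have hs2 : Real.sqrt n ^ 2 = n := Real.sq_sqrt hn'.le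
  obtain ⟨y, hy⟩ : ∃ y : Fin n → ℝ, y = fun v => if v = a ∨ v = b then 0 else w v := ⟨_, rfl⟩
  have ya : y a = 0 := by simp [hy]
  have yb : y b = 0 := by simp [hy]
  have hr := resid_le (C0 := C0) hD a b hab θ w hw1 hθ hwab heig hwa H2 y hy
  -- norm of y
  have hsny : sn y = 1 - 2 * w a ^ 2 := by
    have h1 : ∀ v, y v ^ 2 = w v ^ 2 - (if v = a then w a ^ 2 else 0)
        - (if v = b then w a ^ 2 else 0) := by
      intro v
      rw [hy]
      simp only
      by_cases hva : v = a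
      · simp [hva, hab]
      · by_cases hvb : v = b
        · simp [hvb, hab.symm, hwab]
        · simp [hva, hvb]
    unfold sn at hw1 ⊢
    simp_rw [h1]
    rw [Finset.sum_sub_distrib, Finset.sum_sub_distrib, Finset.sum_ite_eq', Finset.sum_ite_eq', hw1]
    simp only [Finset.mem_univ, if_true]
    ring
  have hsny1 : sn y ≤ 1 := by rw [hsny]; nlinarith [sq_nonneg (w a)]
  have hsny2 : 1 - 2 * ε ^ 2 ≤ sn y := by rw [hsny]; linarith
  obtain ⟨l, hl⟩ : ∃ l : ℝ, l = θ * p * n := ⟨_, rfl⟩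
  rw [← hl] at hr
  have hl2 : l ^ 2 ≤ C0 ^ 2 * n := by
    rw [hl]
    have hp2 : p ^ 2 ≤ 1 := by nlinarith
    calc (θ * p * n) ^ 2 = p ^ 2 * ((θ ^ 2 * n) * n) := by ring
      _ ≤ 1 * ((θ ^ 2 * n) * n) := mul_le_mul_of_nonneg_right hp2 (by positivity)
      _ ≤ C0 ^ 2 * n := by
        rw [one_mul]
        exact mul_le_mul_of_nonneg_right hθ hn'.le
  have htyp := typical (C0 := C0) (c5 := c5) hn hp0 hp1 hO hS hc1 hn1 a b y ya yb l hl2 hr (by
    refine lt_of_lt_of_le H1 ?_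
    apply mul_le_mul_of_nonneg_left _ hc1.le
    linarith)
  -- the grid point
  set D := δ * Real.sqrt n with hDd
  have hDpos : 0 < D := by positivity
  set g : ℤ := ⌊l / D⌋ with hg
  have hg1 : (g : ℝ) * D ≤ l := by
    have := Int.floor_le (l / D)
    rw [← hg, le_div_iff₀ hDpos] at this
    exact this
  have hg2 : l < ((g : ℝ) + 1) * D := by
    have := Int.lt_floor_add_one (l / D)
    rw [← hg, div_lt_iff₀ hDpos] at this
    exact this
  have hlabs : |l| ≤ C0 * Real.sqrt n := by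
    apply abs_le_of_sq_le_sq _ (by positivity)
    rw [mul_pow, hs2]; exact hl2
  have hgm : g ∈ Finset.Icc (-(Gm:ℤ)) Gm := by
    have h1 : |l / D| ≤ C0 / δ := by
      rw [abs_div, abs_of_pos hDpos, div_le_div_iff₀ hDpos hδ]
      calc |l| * δ ≤ (C0 * Real.sqrt n) * δ := mul_le_mul_of_nonneg_right hlabs hδ.le
        _ = C0 * D := by rw [hDd]; ring
    have h2 := Int.floor_le (l / D)
    have h3 := Int.lt_floor_add_one (l / D)
    rw [← hg] at h2 h3
    rw [abs_le] at h1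
    rw [Finset.mem_Icc]
    constructor
    · have : -(Gm : ℝ) ≤ g := by linarith
      exact_mod_cast this
    · have : (g : ℝ) ≤ Gm := by linarith
      exact_mod_cast this
  -- residual with respect to the grid point
  have hr2 : ∑ v, (∑ u, A0 a b G v u * y u - ((g : ℝ) * D) * y v) ^ 2 ≤ δ2 ^ 2 * n := by
    have h1 : ∀ v, (∑ u, A0 a b G v u * y u - ((g : ℝ) * D) * y v) ^ 2
        ≤ 2 * (∑ u, A0 a b G v u * y u - l * y v) ^ 2 + 2 * (δ ^ 2 * n) * y v ^ 2 := by
      intro v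
      have h2 : ∑ u, A0 a b G v u * y u - ((g : ℝ) * D) * y v
          = (∑ u, A0 a b G v u * y u - l * y v) + (l - g * D) * y v := by ring
      rw [h2]
      have h3 : (l - g * D) ^ 2 ≤ δ ^ 2 * n := by
        have : (l - g * D) ^ 2 ≤ D ^ 2 := by
          apply pow_le_pow_left₀ (by linarith)
          linarith
        rwa [hDd, mul_pow, hs2] at this
      have h4 : ((l - g * D) * y v) ^ 2 ≤ δ ^ 2 * n * y v ^ 2 := by
        rw [mul_pow]
        exact mul_le_mul_of_nonneg_right h3 (sq_nonneg _)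
      have h5 : ∀ x z : ℝ, (x + z) ^ 2 ≤ 2 * x ^ 2 + 2 * z ^ 2 := by
        intro x z; nlinarith [sq_nonneg (x - z)]
      have h6 := h5 (∑ u, A0 a b G v u * y u - l * y v) ((l - g * D) * y v)
      linarith
    calc _ ≤ ∑ v, (2 * (∑ u, A0 a b G v u * y u - l * y v) ^ 2 + 2 * (δ ^ 2 * n) * y v ^ 2) :=
          Finset.sum_le_sum (fun v _ => h1 v)
      _ = 2 * ∑ v, (∑ u, A0 a b G v u * y u - l * y v) ^ 2 + 2 * (δ ^ 2 * n) * sn y := by
          rw [Finset.sum_add_distrib, ← Finset.mul_sum, ← Finset.mul_sum]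
          rfl
      _ ≤ 2 * (δ1 ^ 2 * n) + 2 * (δ ^ 2 * n) * 1 := by
          have : 0 ≤ 2 * (δ ^ 2 * n) := by positivity
          have h7 := mul_le_mul_of_nonneg_left hsny1 this
          linarith
      _ = (2 * δ1 ^ 2 + 2 * δ ^ 2) * n := by ring
      _ ≤ δ2 ^ 2 * n := mul_le_mul_of_nonneg_right H3 hn'.le
  have hAs := A0_symm a b G
  obtain ⟨k, hk1, hk2, hk3⟩ := (eigOf (A0 a b G) hAs).approx hAs hn ((g : ℝ) * D) κ h δ2 hκ hh y
    hsny1 hr2
  have hwin := card_win_le a b G (eigOf (A0 a b G) hAs) cN κ hN ((g : ℝ) * D)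
  have hz := mem_net κ h δ Gm (cN * n + 4) (A0 a b G) hAs g hgm hwin k hk1 hk2
  set z := (eigOf (A0 a b G) hAs).pt (h / Real.sqrt n) k with hzdef
  have hyz : sn (fun v => y v - z v) ≤ e ^ 2 := le_trans hk3 H4
  -- `z` is typical
  have hcount : ε1 / 4 * n ≤ ((typ c5 a b z).card : ℝ) := by
    set Ty := Finset.univ.filter (fun v : Fin n => v ≠ a ∧ v ≠ b ∧ c5 ^ 2 ≤ n * y v ^ 2) with hTy
    have h1 := few_diff y z ((c5 / 2) ^ 2) (Ty \ typ c5 a b z) (by
      intro v hv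
      rw [Finset.mem_sdiff] at hv
      obtain ⟨hv1, hv2⟩ := hv
      rw [hTy, Finset.mem_filter] at hv1
      unfold typ at hv2
      simp only [Finset.mem_filter, Finset.mem_univ, true_and, hv1.2.1, hv1.2.2.1, ne_eq,
        not_false_eq_true, not_le] at hv2
      exact sq_diff1 n (y v) (z v) c5 hn'.le hc5.le hv1.2.2.2 hv2)
    have h2 : (Ty.card : ℝ) ≤ (typ c5 a b z).card + (Ty \ typ c5 a b z).card := by
      have : Ty.card ≤ (typ c5 a b z).card + (Ty \ typ c5 a b z).card := by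
        calc Ty.card ≤ (typ c5 a b z ∪ (Ty \ typ c5 a b z)).card := by
              apply Finset.card_le_card
              intro v hv
              rw [Finset.mem_union, Finset.mem_sdiff]
              by_cases h : v ∈ typ c5 a b z
              · exact Or.inl h
              · exact Or.inr ⟨hv, h⟩
          _ ≤ _ := Finset.card_union_le _ _
      exact_mod_cast this
    have h3 : ((Ty \ typ c5 a b z).card : ℝ) ≤ ε1 / 4 * n := by
      have h4 : (c5 / 2) ^ 2 * ((Ty \ typ c5 a b z).card : ℝ) ≤ n * e ^ 2 :=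
        le_trans h1 (mul_le_mul_of_nonneg_left hyz hn'.le)
      have h5 : (n : ℝ) * e ^ 2 ≤ (c5 / 2) ^ 2 * (ε1 / 4 * n) := by
        have : 16 * (n * e ^ 2) ≤ 16 * ((c5 / 2) ^ 2 * (ε1 / 4 * n)) := by
          calc 16 * (n * e ^ 2) = n * (16 * e ^ 2) := by ring
            _ ≤ n * (ε1 * c5 ^ 2) := mul_le_mul_of_nonneg_left H5 hn'.le
            _ = _ := by ring
        linarith
      exact le_of_mul_le_mul_left (le_trans h4 h5) (by positivity)
    linarith
  -- use the net event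
  have hcnt2 : τ * n ≤ (((typ c5 a b z).filter (fun v => adj G a v ≠ adj G b v)).card : ℝ) := by
    by_contra hcon
    push Not at hcon
    apply hnet
    refine ⟨z, hz, Nat.ceil_le.2 hcount, Nat.le_floor hcon.le⟩
  -- transfer to `y`
  set F := (typ c5 a b z).filter (fun v => adj G a v ≠ adj G b v) with hF
  set R := Finset.univ.filter (fun v : Fin n => v ≠ a ∧ v ≠ b ∧ adj G a v ≠ adj G b v ∧
      c ^ 2 ≤ n * w v ^ 2) with hR
  have h1 := few_diff y z ((c5 / 4) ^ 2) (F \ R) (by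
    intro v hv
    rw [Finset.mem_sdiff] at hv
    obtain ⟨hv1, hv2⟩ := hv
    rw [hF, Finset.mem_filter] at hv1
    obtain ⟨hv3, hv4⟩ := hv1
    unfold typ at hv3
    simp only [Finset.mem_filter, Finset.mem_univ, true_and] at hv3
    obtain ⟨hva, hvb, hvz⟩ := hv3
    by_contra hcon
    push Not at hcon
    apply hv2
    rw [hR, Finset.mem_filter]
    refine ⟨Finset.mem_univ _, hva, hvb, hv4, ?_⟩
    have h3 := sq_diff2 n (y v) (z v) c5 hn'.le hc5.le hvz hcon
    have h4 : y v = w v := by simp [hy, hva, hvb]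
    rw [h4] at h3
    refine le_trans ?_ h3
    exact pow_le_pow_left₀ hc.le H8' 2)
  have h2 : (F.card : ℝ) ≤ R.card + (F \ R).card := by
    have : F.card ≤ R.card + (F \ R).card := by
      calc F.card ≤ (R ∪ (F \ R)).card := by
            apply Finset.card_le_card
            intro v hv
            rw [Finset.mem_union, Finset.mem_sdiff]
            by_cases h : v ∈ R
            · exact Or.inl h
            · exact Or.inr ⟨hv, h⟩
        _ ≤ _ := Finset.card_union_le _ _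
    exact_mod_cast this
  have h3 : ((F \ R).card : ℝ) ≤ τ / 2 * n := by
    have h4 : (c5 / 4) ^ 2 * ((F \ R).card : ℝ) ≤ n * e ^ 2 :=
      le_trans h1 (mul_le_mul_of_nonneg_left hyz hn'.le)
    have h5 : (n : ℝ) * e ^ 2 ≤ (c5 / 4) ^ 2 * (τ / 2 * n) := by
      have : 32 * (n * e ^ 2) ≤ 32 * ((c5 / 4) ^ 2 * (τ / 2 * n)) := by
        calc 32 * (n * e ^ 2) = n * (32 * e ^ 2) := by ring
          _ ≤ n * (τ * c5 ^ 2) := mul_le_mul_of_nonneg_left H7 hn'.le
          _ = _ := by ring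
      linarith
    exact le_of_mul_le_mul_left (le_trans h4 h5) (by positivity)
  have h6 : c * n ≤ τ / 2 * n := mul_le_mul_of_nonneg_right H8 hn'.le
  linarith

end Pool.Agent.W766.ChG3
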