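import Pool.Agent.W766.ChG3.Det
import Pool.Agent.W766.ChG3.Count

set_option autoImplicit false
open scoped Classical
open Finset Filter Topology

namespace Pool.Agent.W766.ChG3
open Pool.Agent.W839.Ch

/-- typical coordinates off `a, b` -/
noncomputable def typ {n : ℕ} (c5 : ℝ) (a b : Fin n) (z : Fin n → ℝ) : Finset (Fin n) :=
  Finset.univ.filter (fun v => v ≠ a ∧ v ≠ b ∧ (c5 / 2) ^ 2 ≤ n * z v ^ 2)

noncomputable def eigOf {n : ℕ} (A : Fin n → Fin n → ℝ) (hA : ∀ u v, A u v = A v u) : Eig A :=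
  (exists_eig A hA).some

noncomputable def net {n : ℕ} (κ h δ : ℝ) (Gm : ℕ) (m : ℝ) (A : Fin n → Fin n → ℝ) :
    Finset (Fin n → ℝ) :=
  if hA : ∀ u v, A u v = A v u then
    (Finset.Icc (-(Gm:ℤ)) Gm).biUnion (fun g =>
      if (((eigOf A hA).win ((g : ℝ) * (δ * Real.sqrt n)) (κ * Real.sqrt n)).card : ℝ) ≤ m then
        (ivec ((eigOf A hA).win ((g : ℝ) * (δ * Real.sqrt n)) (κ * Real.sqrt n))
          ⌊(n : ℝ) / h ^ 2⌋₊).image (fun k => (eigOf A hA).pt (h / Real.sqrt n) k)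
      else ∅)
  else ∅

lemma card_net {n : ℕ} (κ h δ : ℝ) (Gm : ℕ) (m : ℝ) (x : ℝ) (hx0 : 0 < x) (hx1 : x < 1)
    (A : Fin n → Fin n → ℝ) :
    ((net κ h δ Gm m A).card : ℝ) ≤ (2 * Gm + 1) *
      ((x ^ ⌊(n : ℝ) / h ^ 2⌋₊)⁻¹ * ((1 + x) / (1 - x)) ^ ⌊m⌋₊) := by
  have hb : 1 ≤ (1 + x) / (1 - x) := by
    rw [le_div_iff₀ (by linarith)]; linarith
  have hpos : 0 ≤ (x ^ ⌊(n : ℝ) / h ^ 2⌋₊)⁻¹ * ((1 + x) / (1 - x)) ^ ⌊m⌋₊ := by positivity
  unfold net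
  split_ifs with hA
  · have h1 : ((((Finset.Icc (-(Gm:ℤ)) Gm).biUnion (fun g =>
      if (((eigOf A hA).win ((g : ℝ) * (δ * Real.sqrt n)) (κ * Real.sqrt n)).card : ℝ) ≤ m then
        (ivec ((eigOf A hA).win ((g : ℝ) * (δ * Real.sqrt n)) (κ * Real.sqrt n))
          ⌊(n : ℝ) / h ^ 2⌋₊).image (fun k => (eigOf A hA).pt (h / Real.sqrt n) k)
      else ∅)).card : ℕ) : ℝ) ≤ ∑ g ∈ (Finset.Icc (-(Gm:ℤ)) Gm),
        ((x ^ ⌊(n : ℝ) / h ^ 2⌋₊)⁻¹ * ((1 + x) / (1 - x)) ^ ⌊m⌋₊) := by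
      refine le_trans (Nat.cast_le.2 Finset.card_biUnion_le) ?_
      push_cast
      apply Finset.sum_le_sum
      intro g _
      split_ifs with hg
      · refine le_trans (Nat.cast_le.2 Finset.card_image_le) ?_
        refine le_trans (card_ivec_le _ _ x hx0 hx1) ?_
        apply mul_le_mul_of_nonneg_left _ (by positivity)
        apply pow_le_pow_right₀ hb
        exact Nat.le_floor hg
      · simpa using hpos
    refine le_trans h1 ?_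
    rw [Finset.sum_const, nsmul_eq_mul]
    apply mul_le_mul_of_nonneg_right _ hpos
    rw [Int.card_Icc]
    have : ((Gm : ℤ) + 1 - -(Gm:ℤ)).toNat = 2 * Gm + 1 := by omega
    rw [this]
    push_cast
    exact le_rfl
  · simp only [Finset.card_empty, Nat.cast_zero]
    positivity

lemma mem_net {n : ℕ} (κ h δ : ℝ) (Gm : ℕ) (m : ℝ) (A : Fin n → Fin n → ℝ)
    (hA : ∀ u v, A u v = A v u) (g : ℤ) (hg : g ∈ Finset.Icc (-(Gm:ℤ)) Gm)
    (hm : (((eigOf A hA).win ((g : ℝ) * (δ * Real.sqrt n)) (κ * Real.sqrt n)).card : ℝ) ≤ m)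
    (k : Fin n → ℤ)
    (hk : ∀ i, i ∉ (eigOf A hA).win ((g : ℝ) * (δ * Real.sqrt n)) (κ * Real.sqrt n) → k i = 0)
    (hk1 : (∑ i, (k i).natAbs : ℕ) ≤ ⌊(n : ℝ) / h ^ 2⌋₊) :
    (eigOf A hA).pt (h / Real.sqrt n) k ∈ net κ h δ Gm m A := by
  unfold net
  rw [dif_pos hA, Finset.mem_biUnion]
  refine ⟨g, hg, ?_⟩
  rw [if_pos hm]
  exact Finset.mem_image_of_mem _ (mem_ivec _ _ k hk hk1)

/-- if `|y| ≥ c`, `|z| < c/2` then `|y - z| ≥ c/2`, in squared form -/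
lemma sq_diff1 (N y z c : ℝ) (hN : 0 ≤ N) (hc : 0 ≤ c) (hy : c ^ 2 ≤ N * y ^ 2)
    (hz : N * z ^ 2 < (c / 2) ^ 2) : (c / 2) ^ 2 ≤ N * (y - z) ^ 2 := by
  have h1 : c ≤ |Real.sqrt N * y| := by
    apply le_of_sq_le_sq _ (abs_nonneg _)
    rw [sq_abs, mul_pow, Real.sq_sqrt hN]; exact hy
  have h2 : |Real.sqrt N * z| ≤ c / 2 := by
    apply abs_le_of_sq_le_sq _ (by positivity)
    rw [mul_pow, Real.sq_sqrt hN]; exact hz.le
  have h3 : c / 2 ≤ |Real.sqrt N * y - Real.sqrt N * z| := by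
    have := abs_sub_abs_le_abs_sub (Real.sqrt N * y) (Real.sqrt N * z)
    linarith
  have h4 : (c / 2) ^ 2 ≤ |Real.sqrt N * y - Real.sqrt N * z| ^ 2 :=
    pow_le_pow_left₀ (by positivity) h3 2
  rw [sq_abs, ← mul_sub, mul_pow, Real.sq_sqrt hN] at h4
  exact h4

lemma sq_diff2 (N y z c : ℝ) (hN : 0 ≤ N) (hc : 0 ≤ c) (hz : (c / 2) ^ 2 ≤ N * z ^ 2)
    (hyz : N * (y - z) ^ 2 < (c / 4) ^ 2) : (c / 4) ^ 2 ≤ N * y ^ 2 := by
  by_contra h
  push Not at h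
  have h1 : c / 2 ≤ |Real.sqrt N * z| := by
    apply le_of_sq_le_sq _ (abs_nonneg _)
    rw [sq_abs, mul_pow, Real.sq_sqrt hN]; exact hz
  have h2 : |Real.sqrt N * (y - z)| < c / 4 := by
    apply abs_lt_of_sq_lt_sq _ (by positivity)
    rw [mul_pow, Real.sq_sqrt hN]; exact hyz
  have h3 : |Real.sqrt N * y| < c / 4 := by
    apply abs_lt_of_sq_lt_sq _ (by positivity)
    rw [mul_pow, Real.sq_sqrt hN]; exact h
  have h4 : |Real.sqrt N * z| ≤ |Real.sqrt N * y| + |Real.sqrt N * (y - z)| := by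
    have e : Real.sqrt N * z = Real.sqrt N * y - Real.sqrt N * (y - z) := by ring
    rw [e]
    exact abs_sub _ _
  linarith

end Pool.Agent.W766.ChG3
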