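import Pool.Agent.W839.Ch.Stubs

set_option autoImplicit false
open scoped Classical
open Finset Filter Topology

namespace Pool.Agent.W766.ChG3
open Pool.Agent.W839.Ch

/-! ## spectral decomposition of a real symmetric matrix, in coordinates -/

structure Eig {n : ℕ} (A : Fin n → Fin n → ℝ) where
  lam : Fin n → ℝ
  e : Fin n → Fin n → ℝ
  orth : ∀ i j, ∑ v, e i v * e j v = if i = j then 1 else 0
  eig : ∀ i v, ∑ u, A v u * e i u = lam i * e i v
  expand : ∀ (y : Fin n → ℝ) (v : Fin n), y v = ∑ i, (∑ u, y u * e i u) * e i v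

theorem exists_eig {n : ℕ} (A : Fin n → Fin n → ℝ) (hA : ∀ u v, A u v = A v u) :
    Nonempty (Eig A) := by
  have hH : (Matrix.of A).IsHermitian := by
    ext u v
    simp [Matrix.conjTranspose_apply, hA u v]
  refine ⟨⟨hH.eigenvalues, fun i v => hH.eigenvectorBasis i v, ?_, ?_, ?_⟩⟩
  · intro i j
    have h := hH.eigenvectorBasis.orthonormal
    rw [orthonormal_iff_ite] at h
    have h2 := h i j
    rw [← h2]
    rw [EuclideanSpace.inner_eq_star_dotProduct]
    simp [dotProduct, mul_comm]
  · intro i v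
    have h := hH.mulVec_eigenvectorBasis i
    have h2 := congrFun h v
    simpa [Matrix.mulVec, dotProduct] using h2
  · intro y v
    have h := hH.eigenvectorBasis.sum_repr (WithLp.toLp 2 y)
    have h2 := congrArg (fun z : EuclideanSpace ℝ (Fin n) => z v) h
    simp only at h2
    have h3 : ∀ i, hH.eigenvectorBasis.repr (WithLp.toLp 2 y) i
        = ∑ u, y u * hH.eigenvectorBasis i u := by
      intro i
      rw [OrthonormalBasis.repr_apply_apply, EuclideanSpace.inner_eq_star_dotProduct]
      simp [dotProduct]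
    simp only [h3] at h2
    rw [← h2]
    simp [Finset.sum_apply]

variable {n : ℕ} {A : Fin n → Fin n → ℝ}

noncomputable def Eig.c (E : Eig A) (y : Fin n → ℝ) (i : Fin n) : ℝ := ∑ u, y u * E.e i u

lemma Eig.parseval (E : Eig A) (y : Fin n → ℝ) : sn y = ∑ i, E.c y i ^ 2 := by
  unfold sn
  have h1 : ∀ v, y v ^ 2 = ∑ i, E.c y i * (y v * E.e i v) := by
    intro v
    rw [pow_two]
    conv_lhs => rw [E.expand y v]
    rw [Finset.sum_mul]
    have : y v = ∑ i, (∑ u, y u * E.e i u) * E.e i v := E.expand y v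
    rw [← this]
    apply Finset.sum_congr rfl
    intro i _
    unfold Eig.c
    ring
  simp_rw [h1]
  rw [Finset.sum_comm]
  apply Finset.sum_congr rfl
  intro i _
  rw [← Finset.mul_sum, pow_two]
  rfl

lemma Eig.c_apply (E : Eig A) (hA : ∀ u v, A u v = A v u) (l : ℝ) (y : Fin n → ℝ) (i : Fin n) :
    E.c (fun v => ∑ u, A v u * y u - l * y v) i = (E.lam i - l) * E.c y i := by
  unfold Eig.c
  simp_rw [sub_mul]
  rw [Finset.sum_sub_distrib]
  have h1 : ∑ v, (∑ u, A v u * y u) * E.e i v = E.lam i * ∑ u, y u * E.e i u := by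
    simp_rw [Finset.sum_mul]
    rw [Finset.sum_comm, Finset.mul_sum]
    apply Finset.sum_congr rfl
    intro u _
    have := E.eig i u
    calc ∑ v, A v u * y u * E.e i v = y u * ∑ v, A u v * E.e i v := by
          rw [Finset.mul_sum]
          apply Finset.sum_congr rfl
          intro v _
          rw [hA v u]; ring
      _ = _ := by rw [this]; ring
  have h2 : ∑ v, l * y v * E.e i v = l * ∑ u, y u * E.e i u := by
    rw [Finset.mul_sum]
    apply Finset.sum_congr rfl
    intro u _
    ring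
  rw [h1, h2]

lemma Eig.c_comb (E : Eig A) (k : Fin n → ℝ) (i : Fin n) :
    E.c (fun v => ∑ j, k j * E.e j v) i = k i := by
  unfold Eig.c
  simp_rw [Finset.sum_mul]
  rw [Finset.sum_comm]
  have : ∀ j, ∑ v, k j * E.e j v * E.e i v = if j = i then k j else 0 := by
    intro j
    have h := E.orth j i
    calc ∑ v, k j * E.e j v * E.e i v = k j * ∑ v, E.e j v * E.e i v := by
          rw [Finset.mul_sum]
          apply Finset.sum_congr rfl
          intro v _
          ring
      _ = _ := by rw [h]; split_ifs <;> simp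
  simp_rw [this]
  simp

lemma Eig.c_sub (E : Eig A) (y z : Fin n → ℝ) (i : Fin n) :
    E.c (fun v => y v - z v) i = E.c y i - E.c z i := by
  unfold Eig.c
  rw [← Finset.sum_sub_distrib]
  apply Finset.sum_congr rfl
  intro v _
  ring

/-- the window of eigenvalues -/
noncomputable def Eig.win (E : Eig A) (l r : ℝ) : Finset (Fin n) :=
  Finset.univ.filter (fun i => (E.lam i - l) ^ 2 ≤ r ^ 2)

/-- net point -/
noncomputable def Eig.pt (E : Eig A) (h : ℝ) (k : Fin n → ℤ) : Fin n → ℝ :=
  fun v => ∑ i, (h * (k i : ℝ)) * E.e i v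

lemma round0 (t : ℝ) : ∃ k : ℤ, |t - k| ≤ 1 ∧ (k.natAbs : ℝ) ≤ t ^ 2 := by
  rcases le_or_gt 0 t with ht | ht
  · refine ⟨⌊t⌋, ?_, ?_⟩
    · have h1 := Int.floor_le t
      have h2 := Int.lt_floor_add_one t
      rw [abs_le]; constructor <;> linarith
    · have h1 := Int.floor_le t
      have h0 : 0 ≤ ⌊t⌋ := Int.floor_nonneg.2 ht
      have h3 : ((⌊t⌋.natAbs : ℕ) : ℝ) = (⌊t⌋ : ℝ) := by
        rw [Nat.cast_natAbs, abs_of_nonneg h0]
      rw [h3]
      rcases eq_or_lt_of_le h0 with h4 | h4
      · rw [← h4]; simp; positivity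
      · have h5 : (1 : ℝ) ≤ ⌊t⌋ := by exact_mod_cast h4
        nlinarith
  · refine ⟨-⌊-t⌋, ?_, ?_⟩
    · have h1 := Int.floor_le (-t)
      have h2 := Int.lt_floor_add_one (-t)
      push_cast
      rw [abs_le]; constructor <;> linarith
    · have h1 := Int.floor_le (-t)
      have h0 : 0 ≤ ⌊-t⌋ := Int.floor_nonneg.2 (by linarith)
      have h3 : (((-⌊-t⌋).natAbs : ℕ) : ℝ) = (⌊-t⌋ : ℝ) := by
        rw [Int.natAbs_neg, Nat.cast_natAbs, abs_of_nonneg h0]
      rw [h3]
      rcases eq_or_lt_of_le h0 with h4 | h4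
      · rw [← h4]; simp; positivity
      · have h5 : (1 : ℝ) ≤ ⌊-t⌋ := by exact_mod_cast h4
        nlinarith

/-- approximation of almost eigenvectors by net points -/
theorem Eig.approx (E : Eig A) (hA : ∀ u v, A u v = A v u) (hn : 0 < n) (l κ h δ : ℝ)
    (hκ : 0 < κ) (hh : 0 < h) (y : Fin n → ℝ) (hy : sn y ≤ 1)
    (hr : ∑ v, (∑ u, A v u * y u - l * y v) ^ 2 ≤ δ ^ 2 * n) :
    ∃ k : Fin n → ℤ, (∀ i, i ∉ E.win l (κ * Real.sqrt n) → k i = 0) ∧
      (∑ i, (k i).natAbs : ℕ) ≤ ⌊(n : ℝ) / h ^ 2⌋₊ ∧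
      sn (fun v => y v - E.pt (h / Real.sqrt n) k v) ≤ δ ^ 2 / κ ^ 2 + h ^ 2 := by
  have hn' : (0 : ℝ) < n := by exact_mod_cast hn
  have hs : 0 < Real.sqrt n := Real.sqrt_pos.2 hn'
  have hs2 : Real.sqrt n ^ 2 = n := Real.sq_sqrt hn'.le
  choose K hK1 hK2 using round0
  set I := E.win l (κ * Real.sqrt n) with hI
  set k : Fin n → ℤ := fun i => if i ∈ I then K (E.c y i * Real.sqrt n / h) else 0 with hk
  have hpars := E.parseval y
  refine ⟨k, ?_, ?_, ?_⟩
  · intro i hi
    simp [hk, hi]
  · apply Nat.le_floor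
    push_cast
    calc (∑ i, ((k i).natAbs : ℝ)) ≤ ∑ i, (E.c y i * Real.sqrt n / h) ^ 2 := by
          apply Finset.sum_le_sum
          intro i _
          by_cases hi : i ∈ I
          · simp only [hk, hi, if_true]
            exact hK2 _
          · simp only [hk, hi, if_false, Int.natAbs_zero, Nat.cast_zero]
            positivity
      _ = (n / h ^ 2) * ∑ i, E.c y i ^ 2 := by
          rw [Finset.mul_sum]
          apply Finset.sum_congr rfl
          intro i _
          rw [div_pow, mul_pow, hs2]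
          ring
      _ ≤ (n / h ^ 2) * 1 := by
          apply mul_le_mul_of_nonneg_left _ (by positivity)
          rw [← hpars]; exact hy
      _ = n / h ^ 2 := mul_one _
  · rw [E.parseval]
    have hc : ∀ i, E.c (fun v => y v - E.pt (h / Real.sqrt n) k v) i
        = E.c y i - h / Real.sqrt n * (k i : ℝ) := by
      intro i
      have h1 := E.c_sub y (E.pt (h / Real.sqrt n) k) i
      rw [h1]
      congr 1
      unfold Eig.pt
      exact E.c_comb (fun i => h / Real.sqrt n * (k i : ℝ)) i
    simp_rw [hc]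
    have hb : ∀ i, (E.c y i - h / Real.sqrt n * (k i : ℝ)) ^ 2
        ≤ (E.lam i - l) ^ 2 * E.c y i ^ 2 / (κ ^ 2 * n) + h ^ 2 / n := by
      intro i
      by_cases hi : i ∈ I
      · have h1 := hK1 (E.c y i * Real.sqrt n / h)
        have h2 : E.c y i - h / Real.sqrt n * (k i : ℝ)
            = h / Real.sqrt n * (E.c y i * Real.sqrt n / h - (K (E.c y i * Real.sqrt n / h) : ℝ)) := by
          simp only [hk, hi, if_true]
          field_simp
        rw [h2, mul_pow, div_pow, hs2]
        have h3 : (E.c y i * Real.sqrt n / h - (K (E.c y i * Real.sqrt n / h) : ℝ)) ^ 2 ≤ 1 := by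
          rw [sq_le_one_iff_abs_le_one]
          exact h1
        have h4 : 0 ≤ (E.lam i - l) ^ 2 * E.c y i ^ 2 / (κ ^ 2 * n) := by positivity
        have h5 : 0 ≤ h ^ 2 / n := by positivity
        nlinarith
      · simp only [hk, hi, if_false, Int.cast_zero, mul_zero, sub_zero]
        have h1 : κ ^ 2 * n ≤ (E.lam i - l) ^ 2 := by
          rw [hI] at hi
          unfold Eig.win at hi
          simp only [Finset.mem_filter, Finset.mem_univ, true_and, not_le] at hi
          rw [mul_pow, hs2] at hi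
          exact hi.le
        have h2 : E.c y i ^ 2 ≤ (E.lam i - l) ^ 2 * E.c y i ^ 2 / (κ ^ 2 * n) := by
          rw [le_div_iff₀ (by positivity), mul_comm]
          exact mul_le_mul_of_nonneg_right h1 (by positivity)
        have h5 : 0 ≤ h ^ 2 / n := by positivity
        linarith
    calc _ ≤ ∑ i, ((E.lam i - l) ^ 2 * E.c y i ^ 2 / (κ ^ 2 * n) + h ^ 2 / n) :=
          Finset.sum_le_sum (fun i _ => hb i)
      _ = (∑ i, (E.lam i - l) ^ 2 * E.c y i ^ 2) / (κ ^ 2 * n) + h ^ 2 := by
          rw [Finset.sum_add_distrib, Finset.sum_const, Finset.card_univ, Fintype.card_fin,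
            nsmul_eq_mul, Finset.sum_div]
          congr 1
          field_simp
      _ ≤ δ ^ 2 * n / (κ ^ 2 * n) + h ^ 2 := by
          gcongr
          have h1 := E.parseval (fun v => ∑ u, A v u * y u - l * y v)
          have h2 : sn (fun v => ∑ u, A v u * y u - l * y v)
              = ∑ i, (E.lam i - l) ^ 2 * E.c y i ^ 2 := by
            rw [h1]
            apply Finset.sum_congr rfl
            intro i _
            rw [E.c_apply hA, mul_pow]
          rw [← h2]
          exact hr
      _ = δ ^ 2 / κ ^ 2 + h ^ 2 := by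
          congr 1
          field_simp

end Pool.Agent.W766.ChG3
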